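import Mathlib
import Pool.Agent.H505Z.NP.Defs

set_option autoImplicit false
set_option linter.unusedSectionVars false
set_option linter.unusedVariables false
set_option linter.style.haveILetI false

/-! From the residue lemma on a curve to `S_curve`. -/

namespace Pool.Agent.H849Z.NP

open Polynomial

theorem ext_der (R S T : Type) [CommRing R] [CommRing S] [CommRing T] [Algebra R S] [Algebra S T]
    [Algebra R T] [IsScalarTower R S T] [Algebra.FormallyEtale S T] (d : Derivation R S T) :
    ∃ D : Derivation R T T, ∀ s, D (algebraMap S T s) = d s := by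
  have hb := KaehlerDifferential.isBaseChange_of_formallyEtale R S T
  refine ⟨(hb.lift d.liftKaehlerDifferential).compDer (KaehlerDifferential.D R T), fun s => ?_⟩
  show (hb.lift d.liftKaehlerDifferential) (KaehlerDifferential.D R T (algebraMap S T s)) = d s
  rw [← KaehlerDifferential.map_D R R S T, hb.lift_eq, Derivation.liftKaehlerDifferential_comp_D]

theorem exists_der (k E : Type) [Field k] [Field E] [Algebra k E] [CharZero k] (t : E)
    (ht : Transcendental k t) (halg : ∀ y : E, IsAlgebraic (Algebra.adjoin k ({t} : Set E)) y) :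
    ∃ D : Derivation k E E, D t = 1 := by
  letI : Algebra k[X] E := (aeval t : k[X] →ₐ[k] E).toRingHom.toAlgebra
  have hmap : ∀ p : k[X], algebraMap k[X] E p = aeval t p := fun p => rfl
  haveI : IsScalarTower k k[X] E := IsScalarTower.of_algebraMap_eq fun c => by
    rw [hmap, AlgHom.commutes]
  have hinj : Function.Injective (algebraMap k[X] E) :=
    transcendental_iff_injective.mp ht
  haveI : FaithfulSMul k[X] E := (faithfulSMul_iff_algebraMap_injective _ _).mpr hinj
  haveI : Algebra.IsAlgebraic k[X] E := ⟨fun y => by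
    have h := isAlgebraic_ringHom_iff_of_comp_eq
      (Polynomial.algEquivOfTranscendental k t ht).toRingEquiv (RingHom.id E)
      Function.injective_id (a := y) (by
        ext p
        · simp [hmap]
        · simp [hmap])
    exact h.mp (halg y)⟩
  letI := FractionRing.liftAlgebra k[X] E
  haveI := FractionRing.isScalarTower_liftAlgebra k[X] E
  haveI : Algebra.IsAlgebraic (FractionRing k[X]) E :=
    Algebra.IsAlgebraic.extendScalars (R := k[X]) (IsFractionRing.injective k[X] _)
  haveI : CharZero (FractionRing k[X]) :=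
    algebraRat.charZero _
  haveI : Algebra.FormallyEtale (FractionRing k[X]) E := Algebra.FormallyEtale.of_isSeparable _ _
  haveI : Algebra.FormallyEtale k[X] (FractionRing k[X]) :=
    Algebra.FormallyEtale.of_isLocalization (nonZeroDivisors k[X])
  haveI : Algebra.FormallyEtale k[X] E := Algebra.FormallyEtale.comp k[X] (FractionRing k[X]) E
  obtain ⟨D, hD⟩ := ext_der k k[X] E (Polynomial.mkDerivation k (1 : E))
  refine ⟨D, ?_⟩
  have h := hD X
  rw [hmap, aeval_X, mkDerivation_X] at h
  exact h

theorem exists_field (K E : Type) [Field K] [Field E] [Algebra K E] [IsAlgClosed E]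
    (L : IntermediateField K E) (x : E) (hx : Transcendental L x) :
    ∃ (k : Type) (_ : Field k) (_ : Algebra k E) (_ : Algebra K k) (_ : IsScalarTower K k E),
      IsAlgClosed k ∧ (∀ z ∈ L, ∃ c : k, algebraMap k E c = z) ∧ Transcendental k x ∧
      ∀ y : E, IsAlgebraic (Algebra.adjoin k ({x} : Set E)) y := by
  have h1 : AlgebraicIndepOn L id ({x} : Set E) := by
    have := (algebraicIndependent_unique_type_iff (R := L)
      (x := fun i : ({x} : Set E) => (i : E))).mpr hx
    exact this
  obtain ⟨t, hxt, ht⟩ := exists_isTranscendenceBasis_superset h1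
  have hxt' : x ∈ t := hxt rfl
  let S : Set E := t \ {x}
  let F1 : IntermediateField L E := IntermediateField.adjoin L S
  let k : IntermediateField F1 E := algebraicClosure F1 E
  have h2 : Transcendental (Algebra.adjoin L S) x := by
    have := ht.1.transcendental_adjoin (s := {i : t | (i : E) ≠ x}) (i := ⟨x, hxt'⟩) (by simp)
    have e : (Subtype.val '' {i : t | (i : E) ≠ x}) = S := by
      ext z
      constructor
      · rintro ⟨i, hi, rfl⟩
        exact ⟨i.2, hi⟩
      · rintro ⟨hz, hz'⟩
        exact ⟨⟨z, hz⟩, hz', rfl⟩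
    rw [e] at this
    exact this
  have h3 : Transcendental F1 x := IntermediateField.transcendental_adjoin_iff.mpr h2
  have h4 : Transcendental k x := h3.extendScalars k
  letI algK : Algebra K k := ((algebraMap L k).comp (algebraMap K L)).toAlgebra
  haveI t1 : IsScalarTower K k E := IsScalarTower.of_algebraMap_eq fun _ => rfl
  haveI t2 : IsScalarTower L k E := IsScalarTower.of_algebraMap_eq fun _ => rfl
  refine ⟨k, inferInstance, inferInstance, algK, t1,
    IsAlgClosure.isAlgClosed F1, ?_, h4, ?_⟩
  · intro z hz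
    exact ⟨algebraMap L k ⟨z, hz⟩, rfl⟩
  · intro y
    have h5 : IsAlgebraic (Algebra.adjoin L (Set.range ((↑) : t → E))) y := ht.isAlgebraic.1 y
    have hle : Algebra.adjoin L (Set.range ((↑) : t → E)) ≤
        (Algebra.adjoin k ({x} : Set E)).restrictScalars L := by
      refine Algebra.adjoin_le ?_
      rintro z ⟨i, rfl⟩
      by_cases hi : (i : E) = x
      · rw [hi]
        exact Algebra.self_mem_adjoin_singleton k x
      · have hS : (i : E) ∈ F1 := IntermediateField.subset_adjoin L S ⟨i.2, hi⟩
        exact (Algebra.adjoin k ({x} : Set E)).algebraMap_mem (algebraMap F1 k ⟨i, hS⟩)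
    exact IsAlgebraic.tower_top_of_subalgebra_le hle h5

section curve

variable {k E : Type} [Field k] [Field E] [Algebra k E]

theorem alg_swap {x : E} (hx : Transcendental k x)
    (halg : ∀ y : E, IsAlgebraic (Algebra.adjoin k ({x} : Set E)) y) {u : E}
    (hu : Transcendental k u) (y : E) : IsAlgebraic (Algebra.adjoin k ({u} : Set E)) y := by
  have h1 : IsAlgebraic (Algebra.adjoin k ({u} : Set E)) x :=
    IsAlgebraic.adjoin_singleton (A := E) (B := E) hx hu (halg u)
  have h2 : x ∈ (AlgebraicIndependent.matroid k E).closure {u} := by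
    rw [AlgebraicIndependent.matroid_closure_eq]
    exact h1
  have h3 : y ∈ (AlgebraicIndependent.matroid k E).closure {x} := by
    rw [AlgebraicIndependent.matroid_closure_eq]
    exact halg y
  have h4 := (AlgebraicIndependent.matroid k E).closure_subset_closure_of_subset_closure
    (Set.singleton_subset_iff.mpr h2) h3
  rw [AlgebraicIndependent.matroid_closure_eq] at h4
  exact h4

theorem val_const (W : ValuationSubring E) (hW : ∀ c : k, algebraMap k E c ∈ W) {c : k}
    (hc : c ≠ 0) : W.valuation (algebraMap k E c) = 1 := by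
  have h1 : W.valuation (algebraMap k E c) ≤ 1 := (W.valuation_le_one_iff _).mpr (hW c)
  have h2 : W.valuation (algebraMap k E c⁻¹) ≤ 1 := (W.valuation_le_one_iff _).mpr (hW c⁻¹)
  have h3 : W.valuation (algebraMap k E c) * W.valuation (algebraMap k E c⁻¹) = 1 := by
    rw [← map_mul, ← map_mul, mul_inv_cancel₀ hc, map_one, map_one]
  refine le_antisymm h1 ?_
  calc (1 : W.ValueGroup) = W.valuation (algebraMap k E c) * W.valuation (algebraMap k E c⁻¹) :=
        h3.symm
    _ ≤ W.valuation (algebraMap k E c) * 1 := mul_le_mul_right h2 _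
    _ = _ := mul_one _

theorem adjoin_sub (W : ValuationSubring E) (hW : ∀ c : k, algebraMap k E c ∈ W) {r : E}
    (hr : r ∈ W) {z : E} (hz : z ∈ Algebra.adjoin k ({r} : Set E)) : z ∈ W := by
  induction hz using Algebra.adjoin_induction with
  | mem y hy => rw [Set.mem_singleton_iff.mp hy]; exact hr
  | algebraMap c => exact hW c
  | add a b _ _ ha hb => exact W.add_mem _ _ ha hb
  | mul a b _ _ ha hb => exact W.mul_mem _ _ ha hb

theorem exists_Q [IsAlgClosed k]
    (hc : ∀ u : E, Transcendental k u → ∀ y : E, IsAlgebraic (Algebra.adjoin k ({u} : Set E)) y)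
    (r u : E) (hu : u ≠ 0) :
    ∃ Q : k[X], Q ≠ 0 ∧ ∀ W : ValuationSubring E, (∀ c : k, algebraMap k E c ∈ W) → r ∈ W →
      W.valuation u < 1 → W.valuation (aeval r Q) < 1 := by
  by_cases hr : IsAlgebraic k r
  · obtain ⟨Q, hQ, hQ'⟩ := hr
    refine ⟨Q, hQ, fun W _ _ _ => ?_⟩
    rw [hQ', map_zero]
    exact zero_lt_one
  · obtain ⟨q, hq0, hq⟩ := (hc r hr u).exists_nonzero_coeff_and_aeval_eq_zero
      (mem_nonZeroDivisors_of_ne_zero hu)
    have hmem : (q.coeff 0 : E) ∈ (aeval r : k[X] →ₐ[k] E).range := by
      rw [← Algebra.adjoin_singleton_eq_range_aeval]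
      exact (q.coeff 0).2
    obtain ⟨Q, hQ⟩ := hmem
    have hQ' : aeval r Q = (q.coeff 0 : E) := hQ
    refine ⟨Q, ?_, fun W hW hrW huW => ?_⟩
    · rintro rfl
      apply hq0
      rw [map_zero] at hQ'
      exact Subtype.ext hQ'.symm
    · have e : aeval u q = u * aeval u q.divX + (q.coeff 0 : E) := by
        conv_lhs => rw [← X_mul_divX_add q]
        rw [map_add, map_mul, aeval_X, aeval_C]
        rfl
      have huW' : u ∈ W := (W.valuation_le_one_iff _).mp huW.le
      have hdiv : aeval u q.divX ∈ W := by
        rw [aeval_eq_sum_range]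
        refine sum_mem fun i _ => ?_
        rw [Algebra.smul_def]
        exact W.mul_mem _ _ (adjoin_sub W hW hrW (q.divX.coeff i).2) (pow_mem huW' i)
      have e2 : aeval r Q = -(u * aeval u q.divX) := by
        rw [hQ', hq] at *
        linear_combination -e
      rw [e2, Valuation.map_neg, map_mul]
      calc W.valuation u * W.valuation (aeval u q.divX) ≤ W.valuation u * 1 :=
            mul_le_mul_right ((W.valuation_le_one_iff _).mpr hdiv) _
        _ < 1 := by rw [mul_one]; exact huW

theorem exists_lam [IsAlgClosed k]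
    (hc : ∀ u : E, Transcendental k u → ∀ y : E, IsAlgebraic (Algebra.adjoin k ({u} : Set E)) y)
    (t1 t2 : E) :
    ∃ lam : k, ∀ W : ValuationSubring E, (∀ c : k, algebraMap k E c ∈ W) →
      1 < max (W.valuation t1) (W.valuation t2) →
      max (W.valuation t1) (W.valuation t2) ≤ W.valuation (t1 + algebraMap k E lam * t2) := by
  classical
  by_cases h2 : t2 = 0
  · refine ⟨1, fun W _ _ => ?_⟩
    rw [h2, mul_zero, add_zero, map_zero, max_eq_left zero_le]
  obtain ⟨Q, hQ, hQW⟩ := exists_Q hc (t1 / t2) t2⁻¹ (inv_ne_zero h2)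
  obtain ⟨mu, hmu⟩ := Infinite.exists_notMem_finset (insert (0 : k) Q.roots.toFinset)
  rw [Finset.mem_insert, not_or, Multiset.mem_toFinset, mem_roots hQ] at hmu
  refine ⟨-mu, fun W hW h1 => ?_⟩
  have hv : W.valuation (algebraMap k E (-mu) * t2) = W.valuation t2 := by
    rw [map_mul, val_const W hW (neg_ne_zero.mpr hmu.1), one_mul]
  by_cases hne : W.valuation t1 = W.valuation t2
  · rw [hne, max_self] at h1 ⊢
    have hv2 : W.valuation t2 ≠ 0 := (Valuation.ne_zero_iff _).mpr h2
    have hv2' : 0 < W.valuation t2 := zero_lt_iff.mpr hv2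
    have hr : t1 / t2 ∈ W := by
      rw [← W.valuation_le_one_iff, map_div₀, hne, div_self hv2]
    have hu : W.valuation t2⁻¹ < 1 := by
      rw [map_inv₀]
      exact inv_lt_one_of_one_lt₀ h1
    have hQ1 := hQW W hW hr hu
    by_contra hlt
    push Not at hlt
    have e : t1 + algebraMap k E (-mu) * t2 = (t1 / t2 - algebraMap k E mu) * t2 := by
      rw [map_neg]; field_simp; ring
    have hlt2 : W.valuation (t1 / t2 - algebraMap k E mu) < 1 := by
      rw [e, map_mul] at hlt
      by_contra hge
      push Not at hge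
      have := mul_le_mul_left hge (W.valuation t2)
      rw [one_mul] at this
      exact absurd hlt (not_lt.mpr this)
    obtain ⟨P, hP⟩ := X_sub_C_dvd_sub_C_eval (a := mu) (p := Q)
    have e3 : algebraMap k E (Q.eval mu) =
        aeval (t1 / t2) Q - (t1 / t2 - algebraMap k E mu) * aeval (t1 / t2) P := by
      have := congrArg (aeval (t1 / t2)) hP
      rw [map_sub, map_mul, map_sub, aeval_X, aeval_C, aeval_C] at this
      linear_combination -this
    have hP1 : W.valuation (aeval (t1 / t2) P) ≤ 1 :=
      (W.valuation_le_one_iff _).mpr (adjoin_sub W hW hr (aeval_mem_adjoin_singleton _ _))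
    have h5 : W.valuation ((t1 / t2 - algebraMap k E mu) * aeval (t1 / t2) P) < 1 := by
      rw [map_mul]
      calc _ ≤ W.valuation (t1 / t2 - algebraMap k E mu) * 1 := mul_le_mul_right hP1 _
        _ < 1 := by rw [mul_one]; exact hlt2
    have h6 := Valuation.map_sub_lt W.valuation hQ1 h5
    rw [← e3, val_const W hW hmu.2] at h6
    exact lt_irrefl _ h6
  · rw [Valuation.map_add_of_distinct_val _ (by rw [hv]; exact hne), hv]

theorem exists_t [IsAlgClosed k]
    (hc : ∀ u : E, Transcendental k u → ∀ y : E, IsAlgebraic (Algebra.adjoin k ({u} : Set E)) y)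
    (s : Finset E) :
    ∃ t : E, ∀ W : ValuationSubring E, (∀ c : k, algebraMap k E c ∈ W) →
      (∀ y ∈ s, 1 < W.valuation y → W.valuation y ≤ W.valuation t) ∧
      ∀ z : E, (∀ y ∈ s, W.valuation y ≤ W.valuation z) → W.valuation t ≤ W.valuation z := by
  classical
  induction s using Finset.induction_on with
  | empty =>
    refine ⟨0, fun W _ => ⟨fun y hy => absurd hy (Finset.notMem_empty y), fun z _ => ?_⟩⟩
    rw [map_zero]
    exact zero_le
  | insert a s ha ih =>
    obtain ⟨t, ht⟩ := ih
    obtain ⟨lam, hlam⟩ := exists_lam hc t a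
    refine ⟨t + algebraMap k E lam * a, fun W hW => ⟨fun y hy h1 => ?_, fun z hz => ?_⟩⟩
    · have h2 : W.valuation y ≤ max (W.valuation t) (W.valuation a) := by
        rcases Finset.mem_insert.mp hy with rfl | hy
        · exact le_max_right _ _
        · exact ((ht W hW).1 y hy h1).trans (le_max_left _ _)
      exact h2.trans (hlam W hW (h1.trans_le h2))
    · refine Valuation.map_add_le _ ((ht W hW).2 z fun y hy => hz y (Finset.mem_insert_of_mem hy)) ?_
      rw [map_mul]
      calc _ ≤ 1 * W.valuation a :=
            mul_le_mul_left ((W.valuation_le_one_iff _).mpr (hW lam)) _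
        _ ≤ W.valuation z := by rw [one_mul]; exact hz a (Finset.mem_insert_self _ _)

theorem exists_W {x : E} (hx : Transcendental k x) :
    ∃ W : ValuationSubring E, (∀ c : k, algebraMap k E c ∈ W) ∧ x ∉ W := by
  by_contra hcon
  push Not at hcon
  have h1 : x ∈ (⨅ V : {V : ValuationSubring E //
      Set.range (algebraMap k E) ⊆ V.toSubring}, V.1.toSubring) := by
    rw [Subring.mem_iInf]
    intro V
    exact hcon V.1 fun c => V.2 ⟨c, rfl⟩
  rw [iInf_valuationSubring_superset] at h1
  have h2 : IsIntegral (Subring.closure (Set.range (algebraMap k E))) x := h1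
  have e : Subring.closure (Set.range (algebraMap k E)) = (algebraMap k E).range := by
    rw [← RingHom.coe_range, Subring.closure_eq]
  rw [e] at h2
  apply hx
  have h3 : IsIntegral k x := by
    obtain ⟨p, hp, hp'⟩ := h2
    obtain ⟨q, hq, -, hq'⟩ := Polynomial.lifts_and_degree_eq_and_monic
      (f := (algebraMap k E).rangeRestrict) (p := p)
      ((Polynomial.mem_lifts _).mpr (Polynomial.map_surjective _
        (algebraMap k E).rangeRestrict_surjective p)) hp
    refine ⟨q, hq', ?_⟩
    rw [← hq, eval₂_map] at hp'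
    exact hp'
  exact h3.isAlgebraic

end curve

theorem thm_curve (h : Pool.Agent.H505Z.NP.S_res) : Pool.Agent.H505Z.NP.S_curve := by
  intro K E _ _ _ _ _ L ι _ ϑ l0 l1 h0 h1
  classical
  obtain ⟨k, _, _, _, _, hk, hL, hx, halg⟩ := exists_field K E L (ϑ l1) h1
  haveI : CharZero k := charZero_of_injective_algebraMap (algebraMap K k).injective
  have hc : ∀ u : E, Transcendental k u →
      ∀ y : E, IsAlgebraic (Algebra.adjoin k ({u} : Set E)) y := fun u hu y => alg_swap hx halg hu y
  haveI := Fintype.ofFinite ι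
  obtain ⟨t, ht⟩ := exists_t hc (Finset.univ.image ϑ)
  have ht1 : ∀ W : ValuationSubring E, (∀ c : k, algebraMap k E c ∈ W) → ∀ l, ϑ l ∉ W →
      W.valuation (ϑ l) ≤ W.valuation t := by
    intro W hW l hl
    refine (ht W hW).1 _ (Finset.mem_image_of_mem _ (Finset.mem_univ l)) ?_
    rw [← W.valuation_le_one_iff] at hl
    exact not_le.mp hl
  have ht2 : ∀ W : ValuationSubring E, (∀ c : k, algebraMap k E c ∈ W) → t ∈ W → ∀ l, ϑ l ∈ W := by
    intro W hW htW l
    by_contra hl
    apply hl
    rw [← W.valuation_le_one_iff]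
    exact (ht1 W hW l hl).trans ((W.valuation_le_one_iff _).mpr htW)
  have htr : Transcendental k t := by
    intro hta
    obtain ⟨W, hW, hxW⟩ := exists_W hx
    apply hxW
    refine ht2 W hW ?_ l1
    obtain ⟨c, hc'⟩ := (minpoly.mem_range_of_degree_eq_one k t
      (IsAlgClosed.degree_eq_one_of_irreducible k (minpoly.irreducible hta.isIntegral)))
    rw [← hc']
    exact hW c
  obtain ⟨D, hD⟩ := exists_der k E t htr (hc t htr)
  refine ⟨D.restrictScalars K, fun z hz => ?_, fun β a ha H => ?_⟩
  · obtain ⟨c, rfl⟩ := hL z hz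
    exact D.map_algebraMap c
  have hKW : ∀ W : ValuationSubring E, (∀ c : k, algebraMap k E c ∈ W) →
      ∀ c : K, algebraMap K E c ∈ W := by
    intro W hW c
    rw [IsScalarTower.algebraMap_apply K k E]
    exact hW _
  refine h k E t htr ⟨fun y => IntermediateField.isAlgebraic_adjoin_iff.mpr (hc t htr y)⟩ D hD β
    (algebraMap K k a) ((_root_.map_ne_zero _).mpr ha) ?_ ?_
  · intro W hW htW
    have h2 := H W (hKW W hW) l0 (by rw [h0]; exact one_ne_zero)
      (fun l' => by rw [h0, div_one]; exact ht2 W hW htW l')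
    rw [h0, Derivation.map_one_eq_zero, zero_div, mul_zero, add_zero] at h2
    exact h2
  · intro W hW htW
    haveI : Nonempty ι := ⟨l0⟩
    obtain ⟨l, hl⟩ := Finite.exists_max fun l => W.valuation (ϑ l)
    have a1 : W.valuation t ≤ W.valuation (ϑ l) := by
      refine (ht W hW).2 _ fun y hy => ?_
      obtain ⟨l', -, rfl⟩ := Finset.mem_image.mp hy
      exact hl l'
    have a2 : ϑ l ∉ W := by
      intro hm
      apply htW
      rw [← W.valuation_le_one_iff]
      exact a1.trans ((W.valuation_le_one_iff _).mpr hm)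
    have a3 : W.valuation (ϑ l) = W.valuation t := le_antisymm (ht1 W hW l a2) a1
    have a4 : ϑ l ≠ 0 := fun e => a2 (by rw [e]; exact W.zero_mem)
    have a5 : t ≠ 0 := fun e => htW (by rw [e]; exact W.zero_mem)
    have a6 : W.valuation (ϑ l) ≠ 0 := (Valuation.ne_zero_iff _).mpr a4
    have a7 : ∀ l', ϑ l' / ϑ l ∈ W := by
      intro l'
      rw [← W.valuation_le_one_iff, map_div₀]
      exact div_le_one_of_le₀ (hl l') zero_le
    have h2 := H W (hKW W hW) l a4 a7
    have b1 : t / ϑ l ∈ W := by
      rw [← W.valuation_le_one_iff, map_div₀, ← a3, div_self a6]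
    have b2 : ϑ l / t ∈ W := by
      rw [← W.valuation_le_one_iff, map_div₀, ← a3, div_self a6]
    have b3 : D (t / ϑ l) ∈ Submodule.span W (D '' (W : Set E)) :=
      Submodule.subset_span ⟨_, b1, rfl⟩
    have b4 := Submodule.smul_mem _
      (⟨algebraMap K E a * (ϑ l / t), W.mul_mem _ _ (hKW W hW a) b2⟩ : W) b3
    have b5 : (1 : E) = t / ϑ l * D (ϑ l) + ϑ l * D (t / ϑ l) := by
      have := D.leibniz (t / ϑ l) (ϑ l)
      rw [div_mul_cancel₀ _ a4, hD, smul_eq_mul, smul_eq_mul] at this
      exact this
    have b6 := Submodule.add_mem _ h2 b4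
    have e : β + algebraMap k E (algebraMap K k a) / t =
        β + algebraMap K E a * (D (ϑ l) / ϑ l) +
          algebraMap K E a * (ϑ l / t) * D (t / ϑ l) := by
      rw [← IsScalarTower.algebraMap_apply]
      have : algebraMap K E a / t =
          algebraMap K E a / t * (t / ϑ l * D (ϑ l) + ϑ l * D (t / ϑ l)) := by
        rw [← b5, mul_one]
      rw [this]
      field_simp
      ring
    rw [e]
    exact b6

end Pool.Agent.H849Z.NP
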